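import Mathlib.CategoryTheory.Category.Init
import Mathlib.Tactic.Monotonicity.Lemmas
import Mathlib.Algebra.Order.Archimedean.Real.Hom
import Mathlib.Analysis.Distribution.SchwartzSpace.Fourier
import Mathlib.Analysis.Fourier.RiemannLebesgueLemma
import Mathlib.Topology.Separation.CompletelyRegular

set_option autoImplicit false

open MeasureTheory Filter Topology Complex Real FourierTransform

namespace Pool.Agent.Lib.helper41

lemma integrable_damped {f : ℝ → ℂ} (hm : AEStronglyMeasurable f) {C : ℝ} (hC : ∀ u, ‖f u‖ ≤ C)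
    (h0 : ∀ u, u < 0 → f u = 0) {ε : ℝ} (hε : 0 < ε) :
    Integrable (fun u => f u * cexp (-(ε * u))) := by
  have h1 : IntegrableOn (fun u : ℝ => C * rexp (-ε * u)) (Set.Ici 0) :=
    ((integrableOn_Ici_iff_integrableOn_Ioi (by simp)).2 (exp_neg_integrableOn_Ioi 0 hε)).const_mul C
  rw [← integrable_indicator_iff measurableSet_Ici] at h1
  refine h1.mono' (hm.mul (by fun_prop)) (Eventually.of_forall fun u => ?_)
  by_cases hu : u < 0
  · simp [h0 u hu, Set.indicator, not_le.2 hu]
  · rw [Set.indicator_of_mem (by simpa using hu), norm_mul, Complex.norm_exp]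
    simp only [neg_re, mul_re, ofReal_re, ofReal_im, mul_zero, sub_zero, neg_mul]
    gcongr
    exact hC u

lemma fourier_damped {f : ℝ → ℂ} {G : ℂ → ℂ}
    (hG : ∀ s : ℂ, 0 < s.re → ∫ u : ℝ, f u * cexp (-(s * u)) = G s) {ε l : ℝ} (hε : 0 < ε)
    (hl : 0 < l) (h t : ℝ) :
    𝓕 (fun w : ℝ => f (h + w / l) * cexp (-(ε * (h + w / l : ℝ)))) t
      = l * cexp (2 * π * l * t * h * I) * G (ε + 2 * π * l * t * I) := by
  rw [fourier_real_eq_integral_exp_smul, ← hG _ (by simpa using hε)]
  set F : ℝ → ℂ := fun u => cexp (2 * π * l * t * h * I) *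
    (f u * cexp (-((ε + 2 * π * l * t * I) * u))) with hF
  have e1 : ∀ w : ℝ, cexp (↑(-2 * π * w * t) * I) •
      (f (h + w / l) * cexp (-(ε * (h + w / l : ℝ)))) = F (h + w / l) := by
    intro w
    have hl' : (l : ℂ) ≠ 0 := by exact_mod_cast hl.ne'
    simp only [hF, smul_eq_mul]
    rw [mul_left_comm, mul_left_comm (cexp _), ← Complex.exp_add, ← Complex.exp_add]
    congr 2
    push_cast
    field_simp
    ring
  simp_rw [e1]
  rw [Measure.integral_comp_div (fun x => F (h + x)) l, integral_add_left_eq_self F h,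
    abs_of_pos hl, hF, integral_const_mul]
  simp [mul_assoc]

/-- Smoothed form of the Tauberian theorem. -/
lemma smoothed_tendsto {f : ℝ → ℂ} (hm : AEStronglyMeasurable f) {C : ℝ} (hC : ∀ u, ‖f u‖ ≤ C)
    (h0 : ∀ u, u < 0 → f u = 0) {G : ℂ → ℂ} (hGc : ContinuousOn G {s | 0 ≤ s.re})
    (hG : ∀ s : ℂ, 0 < s.re → ∫ u : ℝ, f u * cexp (-(s * u)) = G s)
    {g : ℝ → ℂ} (hg : Continuous g) (hgs : HasCompactSupport g) (hFg : Integrable (𝓕 g))
    {l : ℝ} (hl : 0 < l) :
    Tendsto (fun h : ℝ => ∫ w : ℝ, f (h + w / l) * 𝓕 g w) atTop (𝓝 0) := by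
  have hgi : Integrable g := hg.integrable_of_hasCompactSupport hgs
  have hq : ∀ h : ℝ, Measure.QuasiMeasurePreserving (fun w : ℝ => h + w / l) := by
    intro h
    refine (measurePreserving_add_left volume h).quasiMeasurePreserving.comp ?_
    refine ⟨by fun_prop, ?_⟩
    simp_rw [div_eq_mul_inv]
    rw [Real.map_volume_mul_right (inv_ne_zero hl.ne')]
    exact Measure.smul_absolutelyContinuous
  have key : ∀ h : ℝ, ∫ w : ℝ, f (h + w / l) * 𝓕 g w
      = ∫ t : ℝ, l * cexp (2 * π * l * t * h * I) * G (2 * π * l * t * I) * g t := by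
    intro h
    obtain ⟨ε, hε, hε0, hε1⟩ : ∃ ε : ℕ → ℝ, Tendsto ε atTop (𝓝 0) ∧ (∀ n, 0 < ε n) ∧
        ∀ n, ε n ≤ 1 :=
      ⟨fun n : ℕ => 1 / ((n : ℝ) + 1), tendsto_one_div_add_atTop_nhds_zero_nat,
        fun n => by positivity, fun n => by
          rw [div_le_one (by positivity)]; linarith [n.cast_nonneg (α := ℝ)]⟩
    have eq1 : ∀ n : ℕ, ∫ w : ℝ, f (h + w / l) * cexp (-(ε n * (h + w / l : ℝ))) * 𝓕 g w
        = ∫ t : ℝ, l * cexp (2 * π * l * t * h * I) * G (ε n + 2 * π * l * t * I) * g t := by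
      intro n
      have hi : Integrable (fun w : ℝ => f (h + w / l) * cexp (-(ε n * (h + w / l : ℝ)))) :=
        ((integrable_damped hm hC h0 (hε0 n)).comp_add_left h).comp_div hl.ne'
      have := VectorFourier.integral_fourierIntegral_smul_eq_flip (L := innerₗ ℝ)
        Real.continuous_fourierChar continuous_inner hi hgi
      rw [← funext (fun t => congrArg (· * g t) (fourier_damped hG (hε0 n) hl h t))]
      simpa using! this.symm
    have lim1 : Tendsto (fun n : ℕ => ∫ w : ℝ,
        f (h + w / l) * cexp (-(ε n * (h + w / l : ℝ))) * 𝓕 g w) atTop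
        (𝓝 (∫ w : ℝ, f (h + w / l) * 𝓕 g w)) := by
      refine tendsto_integral_of_dominated_convergence (fun w => C * ‖𝓕 g w‖) (fun n => ?_)
        (hFg.norm.const_mul C) (fun n => Eventually.of_forall fun w => ?_)
        (Eventually.of_forall fun w => ?_)
      · exact ((hm.comp_quasiMeasurePreserving (hq h)).mul (by fun_prop)).mul
          hFg.aestronglyMeasurable
      · rw [norm_mul]
        gcongr
        by_cases hu : h + w / l < 0
        · rw [h0 _ hu]; simpa using (norm_nonneg _).trans (hC 0)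
        · rw [norm_mul, Complex.norm_exp]
          simp only [neg_re, mul_re, ofReal_re, ofReal_im, mul_zero, sub_zero]
          have : rexp (-(ε n * (h + w / l))) ≤ 1 := by
            rw [Real.exp_le_one_iff]
            have := mul_nonneg (hε0 n).le (not_lt.1 hu)
            linarith
          calc _ ≤ C * 1 := by
                gcongr
                · exact (norm_nonneg _).trans (hC 0)
                · exact hC _
            _ = C := mul_one C
      · have : Continuous fun e : ℝ => f (h + w / l) * cexp (-(e * (h + w / l : ℝ))) * 𝓕 g w := by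
          fun_prop
        simpa [Function.comp_def] using (this.tendsto 0).comp hε
    obtain ⟨B, hB⟩ : ∃ B, ∀ p ∈ (Set.Icc (0 : ℝ) 1) ×ˢ tsupport g,
        ‖G (p.1 + 2 * π * l * p.2 * I)‖ ≤ B := by
      apply (isCompact_Icc.prod hgs.isCompact).exists_bound_of_continuousOn
      refine hGc.comp (f := fun p : ℝ × ℝ => (p.1 : ℂ) + 2 * π * l * p.2 * I) (by fun_prop) ?_
      intro p hp
      simpa using hp.1.1
    have hGl : ∀ e : ℝ, 0 ≤ e → Continuous fun t : ℝ => G (e + 2 * π * l * t * I) := by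
      intro e he
      exact hGc.comp_continuous (by fun_prop) (fun t => by simpa using he)
    have lim2 : Tendsto (fun n : ℕ => ∫ t : ℝ,
        l * cexp (2 * π * l * t * h * I) * G (ε n + 2 * π * l * t * I) * g t) atTop
        (𝓝 (∫ t : ℝ, l * cexp (2 * π * l * t * h * I) * G (2 * π * l * t * I) * g t)) := by
      refine tendsto_integral_of_dominated_convergence (fun t => l * B * ‖g t‖) (fun n => ?_)
        (hgi.norm.const_mul _) (fun n => Eventually.of_forall fun t => ?_)
        (Eventually.of_forall fun t => ?_)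
      · exact (((by fun_prop : Continuous fun t : ℝ => l * cexp (2 * π * l * t * h * I)).mul
          (hGl _ (hε0 n).le)).mul hg).aestronglyMeasurable
      · by_cases ht : t ∈ tsupport g
        · have h1 := hB (ε n, t) ⟨⟨(hε0 n).le, hε1 n⟩, ht⟩
          have h2 : ‖cexp (2 * π * l * t * h * I)‖ = 1 := by
            rw [show (2 * π * l * t * h * I : ℂ) = ((2 * π * l * t * h : ℝ) : ℂ) * I by
              push_cast; ring, Complex.norm_exp_ofReal_mul_I]
          rw [norm_mul, norm_mul, norm_mul, h2, Complex.norm_real, Real.norm_of_nonneg hl.le,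
            mul_one]
          gcongr
        · simp [image_eq_zero_of_notMem_tsupport ht]
      · refine Tendsto.mul_const _ (Tendsto.const_mul _ ?_)
        have h1 : ContinuousWithinAt G {s | 0 ≤ s.re} (2 * π * l * t * I) := hGc _ (by simp)
        refine h1.tendsto.comp (tendsto_nhdsWithin_iff.2 ⟨?_, Eventually.of_forall fun n => ?_⟩)
        · have : Continuous fun e : ℝ => (e : ℂ) + 2 * π * l * t * I := by fun_prop
          simpa [Function.comp_def] using (this.tendsto 0).comp hε
        · simpa using (hε0 n).le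
    exact tendsto_nhds_unique (lim1.congr eq1) lim2
  have hRL := (Real.zero_at_infty_fourier
    (fun t : ℝ => l * G (2 * π * l * t * I) * g t)).comp
    (show Tendsto (fun h : ℝ => -(l * h)) atTop (cocompact ℝ) from
      (tendsto_neg_atTop_atBot.comp (tendsto_id.const_mul_atTop hl)).mono_right
        atBot_le_cocompact)
  refine hRL.congr fun h => ?_
  rw [key, Function.comp, fourier_real_eq_integral_exp_smul]
  congr 1
  ext t
  rw [smul_eq_mul, show (((-2 * π * t * -(l * h) : ℝ) : ℂ) * I) = 2 * π * l * t * h * I by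
    push_cast; ring]
  ring

lemma exists_kernel : ∃ g : ℝ → ℂ, Continuous g ∧ HasCompactSupport g ∧ Integrable (𝓕 g) ∧
    Integrable (fun w => ‖w‖ * ‖𝓕 g w‖) ∧ ∫ w, 𝓕 g w = 1 := by
  let b : ContDiffBump (0 : ℝ) := ⟨1, 2, one_pos, one_lt_two⟩
  have h1 : HasCompactSupport (fun x => ((b x : ℝ) : ℂ)) :=
    b.hasCompactSupport.comp_left (g := fun y : ℝ => (y : ℂ)) (by simp)
  have h2 : ContDiff ℝ (⊤ : ℕ∞) (fun x => ((b x : ℝ) : ℂ)) :=
    Complex.ofRealCLM.contDiff.comp b.contDiff
  let S : SchwartzMap ℝ ℂ := h1.toSchwartzMap h2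
  have h3 : Integrable (𝓕 (fun x => ((b x : ℝ) : ℂ))) := (𝓕 S).integrable
  refine ⟨fun x => ((b x : ℝ) : ℂ), h2.continuous, h1, h3, ?_, ?_⟩
  · have := (𝓕 S).integrable_pow_mul volume 1
    simp only [pow_one] at this
    exact this
  · have := congrFun (h2.continuous.fourierInv_fourier_eq S.integrable h3) 0
    rw [Real.fourierInv_eq] at this
    simpa [b.one_of_mem_closedBall (Metric.mem_closedBall_self b.rIn_pos.le)] using this

/-- Tauberian theorem for bounded slowly oscillating functions whose Laplace transform extends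
continuously to the closed right half plane. -/
theorem tauber_laplace {f : ℝ → ℂ} (hm : AEStronglyMeasurable f) {C : ℝ} (hC : ∀ u, ‖f u‖ ≤ C)
    (h0 : ∀ u, u < 0 → f u = 0) {G : ℂ → ℂ} (hGc : ContinuousOn G {s | 0 ≤ s.re})
    (hG : ∀ s : ℂ, 0 < s.re → ∫ u : ℝ, f u * cexp (-(s * u)) = G s)
    {K : ℝ} {η : ℝ → ℝ} (hη : Tendsto η atTop (𝓝 0))
    (hosc : ∀ h v, ‖f (h + v) - f h‖ ≤ K * |v| + η h) :
    Tendsto f atTop (𝓝 0) := by
  obtain ⟨g, hg, hgs, hFg, hFg1, hFg2⟩ := exists_kernel
  rw [tendsto_zero_iff_norm_tendsto_zero]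
  set A := ∫ w, ‖w‖ * ‖𝓕 g w‖ with hA
  set B := ∫ w, ‖𝓕 g w‖ with hB
  have main : ∀ l : ℝ, 0 < l → ∀ h, ‖f h‖ ≤
      K / l * A + (η h * B + ‖∫ w : ℝ, f (h + w / l) * 𝓕 g w‖) := by
    intro l hl h
    have hq : Measure.QuasiMeasurePreserving (fun w : ℝ => h + w / l) := by
      refine (measurePreserving_add_left volume h).quasiMeasurePreserving.comp ?_
      refine ⟨by fun_prop, ?_⟩
      simp_rw [div_eq_mul_inv]
      rw [Real.map_volume_mul_right (inv_ne_zero hl.ne')]
      exact Measure.smul_absolutelyContinuous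
    have hi : Integrable (fun w : ℝ => f (h + w / l) * 𝓕 g w) :=
      hFg.bdd_mul (hm.comp_quasiMeasurePreserving hq) (Eventually.of_forall fun w => hC _)
    have e1 : f h = (∫ w : ℝ, f (h + w / l) * 𝓕 g w)
        - ∫ w : ℝ, (f (h + w / l) - f h) * 𝓕 g w := by
      simp_rw [sub_mul]
      rw [integral_sub hi (hFg.const_mul _), integral_const_mul, hFg2]
      ring
    have e2 : ‖∫ w : ℝ, (f (h + w / l) - f h) * 𝓕 g w‖ ≤ K / l * A + η h * B := by
      rw [hA, hB, ← integral_const_mul, ← integral_const_mul,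
        ← integral_add (hFg1.const_mul _) (hFg.norm.const_mul _)]
      refine norm_integral_le_of_norm_le ((hFg1.const_mul _).add (hFg.norm.const_mul _))
        (Eventually.of_forall fun w => ?_)
      rw [norm_mul]
      have := mul_le_mul_of_nonneg_right (hosc h (w / l)) (norm_nonneg (𝓕 g w))
      rw [abs_div, abs_of_pos hl] at this
      refine this.trans (le_of_eq ?_)
      rw [Real.norm_eq_abs]
      ring
    rw [e1]
    refine (norm_sub_le _ _).trans ?_
    linarith
  rw [Metric.tendsto_nhds]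
  intro ε hε
  have t1 : Tendsto (fun l : ℝ => K / l * A) atTop (𝓝 0) := by
    simpa using (tendsto_const_nhds (x := K).div_atTop tendsto_id).mul_const A
  obtain ⟨l, hl1, hl2⟩ := ((t1.eventually (gt_mem_nhds (half_pos hε))).and
    (eventually_gt_atTop 0)).exists
  have t2 : Tendsto (fun h => η h * B + ‖∫ w : ℝ, f (h + w / l) * 𝓕 g w‖) atTop (𝓝 0) := by
    simpa using (hη.mul_const B).add
      (smoothed_tendsto hm hC h0 hGc hG hg hgs hFg hl2).norm
  filter_upwards [t2.eventually (gt_mem_nhds (half_pos hε))] with h hh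
  have := main l hl2 h
  rw [Real.dist_eq, sub_zero, abs_norm]
  linarith

end Pool.Agent.Lib.helper41
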