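import Mathlib.NumberTheory.LSeries.Nonvanishing
import Mathlib.NumberTheory.LSeries.SumCoeff
import Pool.Agent.Lib.helper41.Tauber

set_option autoImplicit false

open MeasureTheory Filter Topology Complex Real Finset

namespace Pool.Agent.Lib.helper41

lemma norm_partial_sum_le {a : ℕ → ℂ} {C : ℝ} (ha : ∀ n, ‖a n‖ ≤ C) (N : ℕ) :
    ‖∑ n ∈ Icc 1 N, a n‖ ≤ C * N := by
  refine (norm_sum_le _ _).trans ((sum_le_card_nsmul _ _ C fun n _ => ha n).trans ?_)
  simp [mul_comm]

lemma norm_partial_sum_sub_le {a : ℕ → ℂ} {C : ℝ} (ha : ∀ n, ‖a n‖ ≤ C) {M N : ℕ} (h : M ≤ N) :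
    ‖∑ n ∈ Icc 1 N, a n - ∑ n ∈ Icc 1 M, a n‖ ≤ C * ((N : ℝ) - M) := by
  rw [← sum_sdiff (Icc_subset_Icc_right h), add_sub_cancel_right]
  refine (norm_sum_le _ _).trans ((sum_le_card_nsmul _ _ C fun n _ => ha n).trans ?_)
  rw [card_sdiff_of_subset (Icc_subset_Icc_right h)]
  simp [mul_comm, Nat.cast_sub h]

lemma osc_aux {a : ℕ → ℂ} {C : ℝ} (ha : ∀ n, ‖a n‖ ≤ C) {x y : ℝ} (hxy : x ≤ y) :
    ‖(∑ n ∈ Icc 1 ⌊rexp y⌋₊, a n) * cexp (-y) - (∑ n ∈ Icc 1 ⌊rexp x⌋₊, a n) * cexp (-x)‖
      ≤ 2 * C * (y - x) + C * rexp (-y) := by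
  have hC : 0 ≤ C := (norm_nonneg _).trans (ha 0)
  set X := ⌊rexp x⌋₊
  set Y := ⌊rexp y⌋₊
  have h1 := norm_partial_sum_sub_le ha (show X ≤ Y from Nat.floor_mono (Real.exp_le_exp.2 hxy))
  have h2 := norm_partial_sum_le ha X
  have hX : (X : ℝ) ≤ rexp x := Nat.floor_le (Real.exp_pos x).le
  have hX' : rexp x < X + 1 := Nat.lt_floor_add_one _
  have hY : (Y : ℝ) ≤ rexp y := Nat.floor_le (Real.exp_pos y).le
  have e : (∑ n ∈ Icc 1 Y, a n) * cexp (-y) - (∑ n ∈ Icc 1 X, a n) * cexp (-x)
      = (∑ n ∈ Icc 1 Y, a n - ∑ n ∈ Icc 1 X, a n) * ((rexp (-y) : ℝ) : ℂ)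
        - (∑ n ∈ Icc 1 X, a n) * ((rexp (-x) - rexp (-y) : ℝ) : ℂ) := by
    push_cast; ring
  have hxy' : rexp (-y) ≤ rexp (-x) := Real.exp_le_exp.2 (by linarith)
  have e1 : rexp y * rexp (-y) = 1 := by rw [← Real.exp_add]; simp
  have e2 : rexp x * rexp (-x) = 1 := by rw [← Real.exp_add]; simp
  have e3 : 1 - (y - x) ≤ rexp x * rexp (-y) := by
    rw [← Real.exp_add]; linarith [Real.add_one_le_exp (x + -y)]
  have hy0 := Real.exp_pos (-y)
  rw [e]
  refine (norm_sub_le _ _).trans ?_
  rw [norm_mul, norm_mul, Complex.norm_real, Complex.norm_real, Real.norm_of_nonneg hy0.le,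
    Real.norm_of_nonneg (by linarith)]
  have b1 : ‖∑ n ∈ Icc 1 Y, a n - ∑ n ∈ Icc 1 X, a n‖ * rexp (-y)
      ≤ C * (rexp y - rexp x + 1) * rexp (-y) := by
    gcongr
    exact h1.trans (mul_le_mul_of_nonneg_left (by linarith) hC)
  have b2 : ‖∑ n ∈ Icc 1 X, a n‖ * (rexp (-x) - rexp (-y))
      ≤ C * rexp x * (rexp (-x) - rexp (-y)) := by
    gcongr
    exact h2.trans (mul_le_mul_of_nonneg_left hX hC)
  have b3 : C * (1 - (y - x)) ≤ C * (rexp x * rexp (-y)) := mul_le_mul_of_nonneg_left e3 hC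
  have e4 : C * (rexp y - rexp x + 1) * rexp (-y) + C * rexp x * (rexp (-x) - rexp (-y))
      = C * (rexp y * rexp (-y)) + C * (rexp x * rexp (-x)) - 2 * (C * (rexp x * rexp (-y)))
        + C * rexp (-y) := by ring
  rw [e1, e2] at e4
  linarith

/-- Tauberian theorem for Dirichlet series with bounded coefficients that extend continuously to
the closed half plane `1 ≤ re s`. -/
theorem sum_isLittleO_of_bounded {a : ℕ → ℂ} {C : ℝ} (ha : ∀ n, ‖a n‖ ≤ C) {H : ℂ → ℂ}
    (hHc : ContinuousOn H {s | 1 ≤ s.re}) (hH : ∀ s : ℂ, 1 < s.re → H s = LSeries a s) :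
    (fun N : ℕ => ∑ n ∈ Icc 1 N, a n) =o[atTop] (fun N : ℕ => (N : ℝ)) := by
  have hC : 0 ≤ C := (norm_nonneg _).trans (ha 0)
  set f : ℝ → ℂ := fun u => (∑ n ∈ Icc 1 ⌊rexp u⌋₊, a n) * cexp (-u) with hf
  have hm : Measurable f :=
    ((measurable_from_top (f := fun N : ℕ => ∑ n ∈ Icc 1 N, a n)).comp
      (Nat.measurable_floor.comp Real.measurable_exp)).mul (by fun_prop)
  have hb : ∀ u, ‖f u‖ ≤ C := by
    intro u
    have h1 := norm_partial_sum_le ha ⌊rexp u⌋₊
    have h2 : (⌊rexp u⌋₊ : ℝ) ≤ rexp u := Nat.floor_le (Real.exp_pos u).le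
    simp only [hf, norm_mul, Complex.norm_exp, neg_re, ofReal_re]
    calc _ ≤ C * rexp u * rexp (-u) := by
          gcongr; exact h1.trans (mul_le_mul_of_nonneg_left h2 hC)
      _ = C := by rw [mul_assoc, ← Real.exp_add]; simp
  have h0 : ∀ u, u < 0 → f u = 0 := by
    intro u hu
    have : ⌊rexp u⌋₊ = 0 := Nat.floor_eq_zero.2 (Real.exp_lt_one_iff.2 hu)
    simp [hf, this]
  have hne : ∀ s : ℂ, 0 ≤ s.re → s + 1 ≠ 0 := by
    intro s hs h
    have := congrArg Complex.re h
    simp at this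
    linarith
  have hlim : Tendsto f atTop (𝓝 0) := by
    refine tauber_laplace hm.aestronglyMeasurable hb h0 (G := fun s => H (s + 1) / (s + 1))
      ?_ ?_ (K := 2 * C) (η := fun h => C * rexp (-h)) ?_ ?_
    · refine ContinuousOn.div (hHc.comp (by fun_prop) ?_) (by fun_prop) hne
      intro s hs
      simpa using hs
    · intro s hs
      have hs1 : 1 < (s + 1).re := by simpa using hs
      rw [hH _ hs1, LSeries_eq_mul_integral' a zero_le_one hs1, mul_div_cancel_left₀ _
        (hne s hs.le), ← Real.exp_zero, ← Real.image_exp_Ioi,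
        integral_image_eq_integral_abs_deriv_smul measurableSet_Ioi
          (fun x _ => (Real.hasDerivAt_exp x).hasDerivWithinAt) Real.exp_injective.injOn,
        ← setIntegral_eq_integral_of_ae_compl_eq_zero (s := Set.Ioi 0)]
      · refine setIntegral_congr_fun measurableSet_Ioi fun u _ => ?_
        simp only [hf, abs_of_pos (Real.exp_pos u), real_smul]
        rw [ofReal_exp, cpow_def_of_ne_zero (Complex.exp_ne_zero _),
          Complex.log_exp (by simp [pi_pos]) (by simpa using pi_nonneg), mul_left_comm, mul_assoc,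
          ← Complex.exp_add, ← Complex.exp_add]
        congr 2
        ring
      · filter_upwards [compl_mem_ae_iff.2 (measure_singleton (μ := volume) (0 : ℝ))] with u hu hu'
        rw [h0 u (lt_of_le_of_ne (not_lt.1 hu') hu), zero_mul]
      · refine Asymptotics.IsBigO.of_bound C (Eventually.of_forall fun n => ?_)
        rw [Real.norm_of_nonneg (sum_nonneg fun _ _ => norm_nonneg _), Real.rpow_one,
          Real.norm_natCast]
        refine (sum_le_card_nsmul _ _ C fun n _ => ha n).trans ?_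
        simp [mul_comm]
    · simpa using Real.tendsto_exp_neg_atTop_nhds_zero.const_mul C
    · intro h v
      rcases le_total 0 v with hv | hv
      · have := osc_aux ha (x := h) (y := h + v) (by linarith)
        have h2 : rexp (-(h + v)) ≤ rexp (-h) := Real.exp_le_exp.2 (by linarith)
        rw [abs_of_nonneg hv]
        refine this.trans ?_
        have := mul_le_mul_of_nonneg_left h2 hC
        linarith
      · have := osc_aux ha (x := h + v) (y := h) (by linarith)
        rw [abs_of_nonpos hv, norm_sub_rev]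
        refine this.trans (le_of_eq ?_)
        ring
  have hlog : Tendsto (fun n : ℕ => Real.log n) atTop atTop :=
    Real.tendsto_log_atTop.comp tendsto_natCast_atTop_atTop
  rw [Asymptotics.isLittleO_iff]
  intro c hc
  filter_upwards [(hlim.comp hlog).norm.eventually (ge_mem_nhds (by simpa using hc)),
    eventually_gt_atTop 0] with N hN hN0
  have hN1 : (0 : ℝ) < N := by exact_mod_cast hN0
  simp only [Function.comp, hf, norm_mul, Complex.norm_exp, neg_re, ofReal_re,
    Real.exp_log hN1, Nat.floor_natCast, Real.exp_neg] at hN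
  rw [Real.norm_natCast]
  rwa [← div_eq_mul_inv, div_le_iff₀ hN1] at hN

/-- The reciprocal of the zeta function, with value zero at one. -/
noncomputable def invZeta (s : ℂ) : ℂ := if s = 1 then 0 else (riemannZeta s)⁻¹

lemma continuousOn_invZeta : ContinuousOn invZeta {s | 1 ≤ s.re} := by
  intro s hs
  apply ContinuousAt.continuousWithinAt
  by_cases h1 : s = 1
  · subst h1
    rw [← continuousWithinAt_compl_self, ContinuousWithinAt]
    have h2 : Tendsto (fun s : ℂ => (s - 1) / ((s - 1) * riemannZeta s)) (𝓝[≠] 1)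
        (𝓝 ((1 - 1) / 1)) :=
      Tendsto.div (((continuous_id.sub continuous_const).tendsto 1).mono_left nhdsWithin_le_nhds)
        riemannZeta_residue_one one_ne_zero
    simp only [sub_self, zero_div] at h2
    simp only [invZeta, if_true]
    refine h2.congr' ?_
    filter_upwards [self_mem_nhdsWithin] with z hz
    have hz' : z ≠ 1 := hz
    rw [invZeta, if_neg hz', div_mul_cancel_left₀ (sub_ne_zero.2 hz')]
  · have h2 : ContinuousAt (fun z => (riemannZeta z)⁻¹) s :=
      (differentiableAt_riemannZeta h1).continuousAt.inv₀ (riemannZeta_ne_zero_of_one_le_re hs)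
    refine h2.congr ?_
    filter_upwards [isOpen_ne.mem_nhds h1] with z hz
    simp [invZeta, hz]

/-- The prime number theorem in Moebius form. -/
theorem mertens_isLittleO : Asymptotics.IsLittleO Filter.atTop
    (fun N : ℕ => ∑ n ∈ Finset.Icc 1 N, ((ArithmeticFunction.moebius n : ℤ) : ℝ))
    (fun N : ℕ => (N : ℝ)) := by
  have h := sum_isLittleO_of_bounded (a := fun n => ((ArithmeticFunction.moebius n : ℤ) : ℂ))
    (C := 1) (fun n => by exact_mod_cast ArithmeticFunction.abs_moebius_le_one)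
    continuousOn_invZeta (fun s hs => by
      have h1 : s ≠ 1 := by rintro rfl; simp at hs
      have h2 := LSeries_one_mul_Lseries_moebius hs
      rw [LSeries_one_eq_riemannZeta hs] at h2
      rw [invZeta, if_neg h1]
      exact (eq_inv_of_mul_eq_one_right h2).symm)
  refine (Asymptotics.isLittleO_norm_left.1 ?_)
  refine (Asymptotics.isLittleO_norm_left.2 h).congr_left fun N => ?_
  rw [← Complex.norm_real]
  push_cast
  rfl

end Pool.Agent.Lib.helper41
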